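import Mathlib
import Pool.Agent.H91U.CoefSep
import Pool.Agent.H91U.SelfSs
import Pool.Agent.H91U.FSpan

/-!
# One independent root for each simple factor
-/

set_option autoImplicit false

namespace Pool.Agent.Results.MP_bbcdf5_ag.CommutativeEnd

open Polynomial Pool.Agent.H91.Mono Pool.Agent.H91U

/-- Let `E` be a field of characteristic zero and `Γ` a group of similitudes of a nondegenerate
alternating or symmetric form on `V`, acting semisimply, or with an element that has squarefree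
characteristic polynomial and self-conjugate roots. Let `ρ` be a representation on `V` of a reduced
commutative finite-dimensional `ℚ`-algebra `L`, such that every endomorphism commuting with `Γ` is an
`E`-linear combination of endomorphisms `ρ b`, and such that every `b ∈ L` that kills all Frobenius
vectors compatible with `L` acts as zero (if `L` is a field, this means that some such vector is not
zero). Then the Zariski closure of `Γ` contains the square of every similitude that commutes with all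
endomorphisms commuting with a subgroup of finite index of `Γ`, and the similitude itself if the form
is alternating. -/
theorem result {E : Type*} [Field E] [CharZero E] {V : Type*}
    [AddCommGroup V] [Module E V] [FiniteDimensional E V] (ψ : V →ₗ[E] V →ₗ[E] E)
    (hψ : (∀ v, ψ v v = 0) ∨ (∀ u v, ψ u v = ψ v u)) (hnd : ∀ v, (∀ w, ψ v w = 0) → v = 0)
    (Γ : Subgroup (V ≃ₗ[E] V))
    (hsim : ∀ γ ∈ Γ, ∃ μ : E, ∀ u v, ψ ((γ : V ≃ₗ[E] V) u) ((γ : V ≃ₗ[E] V) v) = μ * ψ u v)
    (hΓ : (∀ W : Submodule E V, (∀ γ ∈ Γ, ∀ w ∈ W, (γ : V ≃ₗ[E] V) w ∈ W) →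
        ∃ W' : Submodule E V, (∀ γ ∈ Γ, ∀ w ∈ W', (γ : V ≃ₗ[E] V) w ∈ W') ∧ IsCompl W W') ∨
      (∃ F ∈ Γ, ∃ lam : E, (∀ u v, ψ ((F : V ≃ₗ[E] V) u) ((F : V ≃ₗ[E] V) v) = lam * ψ u v) ∧
        Squarefree (LinearMap.charpoly ((F : V ≃ₗ[E] V) : V →ₗ[E] V)) ∧
        ∀ x : AlgebraicClosure E,
          aeval x (LinearMap.charpoly ((F : V ≃ₗ[E] V) : V →ₗ[E] V)) = 0 →
            minpoly E (algebraMap E (AlgebraicClosure E) lam / x) = minpoly E x))
    {L : Type*} [CommRing L] [Algebra ℚ L] [Module.Finite ℚ L] [IsReduced L]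
    (ρ : L →+* Module.End E V)
    (hspan : ∀ c : Module.End E V, (∀ γ ∈ Γ, ∀ v, c ((γ : V ≃ₗ[E] V) v) = γ (c v)) →
      c ∈ Submodule.span E (Set.range ρ))
    (hsep : ∀ b : L, (∀ v, FrobVecL ρ ψ Γ v → ρ b v = 0) → ρ b = 0)
    (g : V ≃ₗ[E] V) (hg : ∃ μ : E, ∀ u v, ψ (g u) (g v) = μ * ψ u v)
    (hcomm : ∀ c : Module.End E V, Comm Γ c → ∀ v, c (g v) = g (c v)) :
    InCl Γ ((g * g : V ≃ₗ[E] V) : Module.End E V) ∧
      ((∀ v, ψ v v = 0) → InCl Γ (g : Module.End E V)) := by
  obtain ⟨μ, hg⟩ := hg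
  have hss : ∀ W : Submodule E V, (∀ γ ∈ Γ, ∀ w ∈ W, (γ : V ≃ₗ[E] V) w ∈ W) →
      ∃ W' : Submodule E V, (∀ γ ∈ Γ, ∀ w ∈ W', (γ : V ≃ₗ[E] V) w ∈ W') ∧ IsCompl W W' := by
    rcases hΓ with h | ⟨F, hF, lam, h1, h2, h3⟩
    · exact h
    · exact fun W hW => ss_of_self (AlgebraicClosure E) ψ hψ hnd Γ hsim F hF lam h1 h2 h3 W hW
  have hLF : ∀ v, FrobVecL ρ ψ Γ v → FrobVec ψ Γ v := by
    rintro v ⟨p, n, hp, P, R, F, h1, h2, h3, h4, h5, h6, h7, -, -⟩
    exact ⟨p, n, hp, P, R, F, h1, h2, h3, h4, h5, h6, h7⟩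
  by_cases hV : Subsingleton V
  · have h1 : ∀ f : V ≃ₗ[E] V, InCl Γ (f : Module.End E V) := by
      intro f
      have h2 : (f : Module.End E V) = 1 := by
        ext v
        exact Subsingleton.elim _ _
      rw [h2]
      exact inCl_one
    exact ⟨h1 _, fun _ => h1 _⟩
  · have hex : ∃ w, IndVec ψ Γ w ∧ w ≠ 0 := by
      by_contra hcon
      push Not at hcon
      have h1 := hsep 1 (by
        intro v hv
        rw [hcon v (frobVec_ind (hLF v hv)), map_zero])
      rw [map_one] at h1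
      apply hV
      refine ⟨fun u v => ?_⟩
      have h2 := LinearMap.congr_fun h1 u
      have h3 := LinearMap.congr_fun h1 v
      rw [Module.End.one_apply, LinearMap.zero_apply] at h2 h3
      rw [h2, h3]
    have htop : Submodule.span E {w | FrobVec ψ Γ w} = ⊤ :=
      span_frob hsim hss fun c hc h => coef_sep ρ ψ Γ hsep c (hspan c hc) h
    exact (mainU (AlgebraicClosure E) ψ hψ hnd Γ hsim hss hex (by
      intro c _ h
      have h1 : Submodule.span E {w : V | FrobVec ψ Γ w} ≤ LinearMap.ker c := by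
        rw [Submodule.span_le]
        intro w hw
        exact h w (Or.inl (frobVec_ind hw))
      rw [htop] at h1
      ext v
      exact h1 Submodule.mem_top) g μ hg).1 hcomm

end Pool.Agent.Results.MP_bbcdf5_ag.CommutativeEnd
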