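import Mathlib
import Pool.Agent.H91S.Main
import Pool.Agent.H91U.Conds
import Pool.Agent.H91U.CommSc
import Pool.Agent.H91U.IrrCp

/-!
# Characteristic polynomials of few Frobenii determine the monodromy group
-/

set_option autoImplicit false

namespace Pool.Agent.Results.MP_bbcdf5_ag.FrobeniiOnly

open Polynomial Pool.Agent.H91.Mono Pool.Agent.H91S Pool.Agent.H91U

/-- Let `E` be a field of characteristic zero and `Γ` a group of similitudes of a nondegenerate
alternating or symmetric form on `V`. Suppose that some `F ∈ Γ` has multiplier `q = p ^ n` and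
characteristic polynomial `P ∈ ℚ[X]`, all complex roots of `P` have absolute value `√q`, and `P` has
an independent root (which holds if `P` has a root of K3 type, or is irreducible of degree larger
than two and satisfies one of the three arithmetic conditions). Suppose moreover that some `F₀ ∈ Γ`
has characteristic polynomial irreducible over `E` with a nondegenerate root, and that for each prime
`r` dividing `dim V` some `G ∈ Γ` has a nondegenerate eigenvalue whose degree over `E` is prime to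
`r`. Then the Zariski closure of `Γ` contains every similitude if the form is alternating, and every
proper similitude if it is symmetric. Neither semisimplicity nor irreducibility of the representation
is assumed. -/
theorem result (p n : ℕ) [Fact p.Prime] (hn : 0 < n) (P : ℚ[X])
    (hweil : ∀ z : ℂ, aeval z P = 0 → ‖z‖ ^ 2 = (p : ℝ) ^ n)
    (hcond : (∃ x : ℂ, Indep ((p : ℂ) ^ n) P x) ∨ K3Cond p n P ∨
      (Irreducible P ∧ 2 < P.natDegree ∧ (CycleCond p n P ∨ HalfCond p n P ∨ SepCond p n P)))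
    {E : Type*} [Field E] [CharZero E] {V : Type*}
    [AddCommGroup V] [Module E V] [FiniteDimensional E V] (ψ : V →ₗ[E] V →ₗ[E] E)
    (hψ : (∀ v, ψ v v = 0) ∨ (∀ u v, ψ u v = ψ v u)) (hnd : ∀ v, (∀ w, ψ v w = 0) → v = 0)
    (Γ : Subgroup (V ≃ₗ[E] V))
    (hsim : ∀ γ ∈ Γ, ∃ μ : E, ∀ u v, ψ ((γ : V ≃ₗ[E] V) u) ((γ : V ≃ₗ[E] V) v) = μ * ψ u v)
    (F : V ≃ₗ[E] V) (hF : F ∈ Γ)
    (hchar : LinearMap.charpoly (F : V →ₗ[E] V) = P.map (algebraMap ℚ E))
    (hmult : ∀ u v, ψ (F u) (F v) = (p : E) ^ n * ψ u v)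
    (F₀ : V ≃ₗ[E] V) (hF₀ : F₀ ∈ Γ)
    (hirr : Irreducible (LinearMap.charpoly (F₀ : V →ₗ[E] V)))
    (hα : ∃ α : AlgebraicClosure E, NondegRoot F₀ α)
    (hprime : ∀ r : ℕ, r.Prime → r ∣ Module.finrank E V → ∃ G ∈ Γ, ∃ β : AlgebraicClosure E,
      NondegRoot G β ∧ ¬ r ∣ (minpoly E β).natDegree)
    (g : V ≃ₗ[E] V) (μ : E) (hg : ∀ u v, ψ (g u) (g v) = μ * ψ u v)
    (hdet : (∀ v, ψ v v = 0) ∨
      LinearMap.det (g : V →ₗ[E] V) = μ ^ (Module.finrank E V / 2)) :
    InCl Γ (g : Module.End E V) := by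
  obtain ⟨α, hα⟩ := hα
  have hP : P ≠ 0 := by
    rintro rfl
    have h1 := LinearMap.charpoly_monic (F : V →ₗ[E] V)
    rw [hchar, Polynomial.map_zero] at h1
    exact h1.ne_zero rfl
  obtain ⟨x, hx⟩ := exists_indep hn hP hweil hcond
  have hsc : ∀ c : Module.End E V, Comm Γ c → ∃ a : E, c = a • (1 : Module.End E V) :=
    fun c hc => comm_scalar (AlgebraicClosure E) Γ F₀ hF₀ hirr α hα hprime c hc
  have hss : ∀ W : Submodule E V, (∀ γ ∈ Γ, ∀ w ∈ W, (γ : V ≃ₗ[E] V) w ∈ W) →
      ∃ W' : Submodule E V, (∀ γ ∈ Γ, ∀ w ∈ W', (γ : V ≃ₗ[E] V) w ∈ W') ∧ IsCompl W W' := by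
    intro W hW
    rcases irr_charpoly (F₀ : Module.End E V) hirr W (fun w hw => hW F₀ hF₀ w hw) with h | h
    · subst h
      exact ⟨⊤, fun _ _ _ _ => Submodule.mem_top, isCompl_bot_top⟩
    · subst h
      refine ⟨⊥, fun γ _ w hw => ?_, isCompl_top_bot⟩
      rw [Submodule.mem_bot] at hw ⊢
      rw [hw, map_zero]
  exact strong hn hweil hx (AlgebraicClosure E) ψ hψ hnd Γ hsim hss hsc F hF hchar hmult g μ hg
    (hdet.imp id Or.inr)

end Pool.Agent.Results.MP_bbcdf5_ag.FrobeniiOnly
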