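import Mathlib
import Pool.Agent.H91U.Final
import Pool.Agent.H91U.SelfSs
import Pool.Agent.H91U.FSpan

/-!
# Independent Frobenius eigenvectors determine the monodromy group
-/

set_option autoImplicit false

namespace Pool.Agent.Results.MP_bbcdf5_ag.IndependentEigenvectors

open Polynomial Pool.Agent.H91.Mono Pool.Agent.H91U

/-- Let `E` be a field of characteristic zero and `Γ` a group of similitudes of a nondegenerate
alternating or symmetric form on `V`. Suppose that `Γ` acts semisimply, or that some `F ∈ Γ` has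
squarefree characteristic polynomial and `x`, `lam / x` are conjugate over `E` for all its roots `x`
(`lam` the multiplier). Suppose that `V` is irreducible or spanned by Frobenius vectors and Tate
vectors, and that some Frobenius vector is not zero. Then the Zariski closure of `Γ` contains the
square of every similitude that commutes with all endomorphisms commuting with a subgroup of finite
index of `Γ`, and the similitude itself if the form is alternating. If only scalars commute with a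
subgroup of finite index, it contains every similitude if `V` has odd dimension and every proper
similitude if `V` has even dimension. -/
theorem result {E : Type*} [Field E] [CharZero E] {V : Type*}
    [AddCommGroup V] [Module E V] [FiniteDimensional E V] (ψ : V →ₗ[E] V →ₗ[E] E)
    (hψ : (∀ v, ψ v v = 0) ∨ (∀ u v, ψ u v = ψ v u)) (hnd : ∀ v, (∀ w, ψ v w = 0) → v = 0)
    (Γ : Subgroup (V ≃ₗ[E] V))
    (hsim : ∀ γ ∈ Γ, ∃ μ : E, ∀ u v, ψ ((γ : V ≃ₗ[E] V) u) ((γ : V ≃ₗ[E] V) v) = μ * ψ u v)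
    (hΓ : (∀ W : Submodule E V, (∀ γ ∈ Γ, ∀ w ∈ W, (γ : V ≃ₗ[E] V) w ∈ W) →
        ∃ W' : Submodule E V, (∀ γ ∈ Γ, ∀ w ∈ W', (γ : V ≃ₗ[E] V) w ∈ W') ∧ IsCompl W W') ∨
      (∃ F ∈ Γ, ∃ lam : E, (∀ u v, ψ ((F : V ≃ₗ[E] V) u) ((F : V ≃ₗ[E] V) v) = lam * ψ u v) ∧
        Squarefree (LinearMap.charpoly ((F : V ≃ₗ[E] V) : V →ₗ[E] V)) ∧
        ∀ x : AlgebraicClosure E,
          aeval x (LinearMap.charpoly ((F : V ≃ₗ[E] V) : V →ₗ[E] V)) = 0 →
            minpoly E (algebraMap E (AlgebraicClosure E) lam / x) = minpoly E x))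
    (hV : (∀ W : Submodule E V, (∀ γ ∈ Γ, ∀ w ∈ W, (γ : V ≃ₗ[E] V) w ∈ W) → W = ⊥ ∨ W = ⊤) ∨
      Submodule.span E {w : V | FrobVec ψ Γ w ∨ TateVec ψ Γ w} = ⊤)
    (hex : ∃ w, FrobVec ψ Γ w ∧ w ≠ 0)
    (g : V ≃ₗ[E] V) (μ : E) (hg : ∀ u v, ψ (g u) (g v) = μ * ψ u v) :
    ((∀ c : Module.End E V, Comm Γ c → ∀ v, c (g v) = g (c v)) →
      InCl Γ ((g * g : V ≃ₗ[E] V) : Module.End E V) ∧
        ((∀ v, ψ v v = 0) → InCl Γ (g : Module.End E V))) ∧
    ((∀ c : Module.End E V, Comm Γ c → ∃ a : E, c = a • (1 : Module.End E V)) →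
      (Odd (Module.finrank E V) ∨
        LinearMap.det (g : V →ₗ[E] V) = μ ^ (Module.finrank E V / 2)) →
      InCl Γ (g : Module.End E V)) := by
  have hss : ∀ W : Submodule E V, (∀ γ ∈ Γ, ∀ w ∈ W, (γ : V ≃ₗ[E] V) w ∈ W) →
      ∃ W' : Submodule E V, (∀ γ ∈ Γ, ∀ w ∈ W', (γ : V ≃ₗ[E] V) w ∈ W') ∧ IsCompl W W' := by
    rcases hΓ with h | ⟨F, hF, lam, h1, h2, h3⟩
    · exact h
    · exact fun W hW => ss_of_self (AlgebraicClosure E) ψ hψ hnd Γ hsim F hF lam h1 h2 h3 W hW
  have hspan : Submodule.span E {w : V | FrobVec ψ Γ w ∨ TateVec ψ Γ w} = ⊤ := by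
    rcases hV with hirr | h
    · have hst : ∀ γ ∈ Γ, ∀ w ∈ Submodule.span E {w : V | FrobVec ψ Γ w},
          (γ : V ≃ₗ[E] V) w ∈ Submodule.span E {w : V | FrobVec ψ Γ w} := by
        intro γ hγ
        have h1 : Submodule.span E {w : V | FrobVec ψ Γ w} ≤
            (Submodule.span E {w : V | FrobVec ψ Γ w}).comap (γ : V →ₗ[E] V) := by
          rw [Submodule.span_le]
          intro w hw
          exact Submodule.subset_span (frobVec_map hsim hw hγ)
        exact fun w hw => h1 hw
      rw [eq_top_iff]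
      rcases hirr _ hst with h | h
      · obtain ⟨w, hw, hw0⟩ := hex
        exfalso
        apply hw0
        have h1 : w ∈ Submodule.span E {w : V | FrobVec ψ Γ w} := Submodule.subset_span hw
        rwa [h, Submodule.mem_bot] at h1
      · rw [← h]
        exact Submodule.span_mono (fun w hw => Or.inl hw)
    · exact h
  refine mainU (AlgebraicClosure E) ψ hψ hnd Γ hsim hss ?_ ?_ g μ hg
  · obtain ⟨w, hw, hw0⟩ := hex
    exact ⟨w, frobVec_ind hw, hw0⟩
  · intro c _ h
    have h1 : Submodule.span E {w : V | FrobVec ψ Γ w ∨ TateVec ψ Γ w} ≤ LinearMap.ker c := by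
      rw [Submodule.span_le]
      intro w hw
      exact h w (hw.imp frobVec_ind id)
    rw [hspan] at h1
    ext v
    exact h1 Submodule.mem_top

end Pool.Agent.Results.MP_bbcdf5_ag.IndependentEigenvectors
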