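import Mathlib
import Pool.Agent.H91S.Main
import Pool.Agent.H91S.K3
import Pool.Agent.H91U.OddSc

/-!
# Irreducible realisations of odd rank
-/

set_option autoImplicit false

namespace Pool.Agent.Results.MP_bbcdf5_ag.OddRank

open Polynomial Pool.Agent.H91.Mono Pool.Agent.H91S Pool.Agent.H91U

/-- Let `E` be a field of characteristic zero and `Γ` a group of similitudes of a nondegenerate
symmetric form on `V`, of odd dimension and irreducible. Suppose that some `F ∈ Γ` has multiplier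
`q = p ^ n` and characteristic polynomial `P ∈ ℚ[X]`, all complex roots of `P` have absolute value
`√q`, and `P` has an independent root or a root of K3 type, and that the characteristic polynomial of
some `F₀ ∈ Γ` has only simple roots, no quotient of two of them being a root of unity. Then the
Zariski closure of `Γ` contains every similitude. -/
theorem result (p n : ℕ) [Fact p.Prime] (hn : 0 < n) (P : ℚ[X])
    (hweil : ∀ z : ℂ, aeval z P = 0 → ‖z‖ ^ 2 = (p : ℝ) ^ n)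
    (hcond : (∃ x : ℂ, Indep ((p : ℂ) ^ n) P x) ∨ K3Cond p n P)
    {E : Type*} [Field E] [CharZero E] {V : Type*}
    [AddCommGroup V] [Module E V] [FiniteDimensional E V] (ψ : V →ₗ[E] V →ₗ[E] E)
    (hsym : ∀ u v, ψ u v = ψ v u) (hnd : ∀ v, (∀ w, ψ v w = 0) → v = 0)
    (Γ : Subgroup (V ≃ₗ[E] V))
    (hsim : ∀ γ ∈ Γ, ∃ μ : E, ∀ u v, ψ ((γ : V ≃ₗ[E] V) u) ((γ : V ≃ₗ[E] V) v) = μ * ψ u v)
    (hirr : ∀ W : Submodule E V, (∀ γ ∈ Γ, ∀ w ∈ W, (γ : V ≃ₗ[E] V) w ∈ W) → W = ⊥ ∨ W = ⊤)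
    (hodd : Odd (Module.finrank E V)) (F : V ≃ₗ[E] V) (hF : F ∈ Γ)
    (hchar : LinearMap.charpoly (F : V →ₗ[E] V) = P.map (algebraMap ℚ E))
    (hmult : ∀ u v, ψ (F u) (F v) = (p : E) ^ n * ψ u v)
    (F₀ : V ≃ₗ[E] V) (hF₀ : F₀ ∈ Γ)
    (hsimple : Squarefree (LinearMap.charpoly (F₀ : V →ₗ[E] V)))
    (hquot : ∀ x y : AlgebraicClosure E, aeval x (LinearMap.charpoly (F₀ : V →ₗ[E] V)) = 0 →
      aeval y (LinearMap.charpoly (F₀ : V →ₗ[E] V)) = 0 → ∀ m : ℕ, 0 < m → x ^ m = y ^ m → x = y)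
    (g : V ≃ₗ[E] V) (hg : ∃ μ : E, ∀ u v, ψ (g u) (g v) = μ * ψ u v) :
    InCl Γ (g : Module.End E V) := by
  obtain ⟨μ, hg⟩ := hg
  have hP : P ≠ 0 := by
    rintro rfl
    have h1 := LinearMap.charpoly_monic (F : V →ₗ[E] V)
    rw [hchar, Polynomial.map_zero] at h1
    exact h1.ne_zero rfl
  obtain ⟨x, hx⟩ : ∃ x : ℂ, Indep ((p : ℂ) ^ n) P x := by
    rcases hcond with h | h
    · exact h
    · exact indep_of_k3 hn hP hweil h
  have hsc : ∀ c : Module.End E V, Comm Γ c → ∃ a : E, c = a • (1 : Module.End E V) :=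
    fun c hc => odd_scalar (AlgebraicClosure E) ψ hsym hnd Γ hsim hirr hodd F₀ hF₀ hsimple hquot c
      hc
  have hss : ∀ W : Submodule E V, (∀ γ ∈ Γ, ∀ w ∈ W, (γ : V ≃ₗ[E] V) w ∈ W) →
      ∃ W' : Submodule E V, (∀ γ ∈ Γ, ∀ w ∈ W', (γ : V ≃ₗ[E] V) w ∈ W') ∧ IsCompl W W' := by
    intro W hW
    rcases hirr W hW with h | h
    · subst h
      exact ⟨⊤, fun _ _ _ _ => Submodule.mem_top, isCompl_bot_top⟩
    · subst h
      refine ⟨⊥, fun γ _ w hw => ?_, isCompl_top_bot⟩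
      rw [Submodule.mem_bot] at hw ⊢
      rw [hw, map_zero]
  exact strong hn hweil hx (AlgebraicClosure E) ψ (Or.inr hsym) hnd Γ hsim hss hsc F hF hchar hmult
    g μ hg (Or.inr (Or.inl hodd))

end Pool.Agent.Results.MP_bbcdf5_ag.OddRank
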